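import Pool.Agent.W622.ETG.Lin

set_option autoImplicit false

namespace Pool.Agent.W853.ELG

open Pool.Agent.W622.ETG Module

/-- every cone lies in a maximal cone -/
theorem exists_maxCone {V : Type} [AddCommGroup V] [Module (ZMod 2) V] [Finite V] {e : V} {A : Fam V}
    {Z : DSub V} (hZ : IsCone e A Z) : ∃ M, MaxCone e A M ∧ Z ≤ M := by
  have hfin : {M : DSub V | IsCone e A M ∧ Z ≤ M}.Finite := Set.toFinite _
  obtain ⟨M, hM, hmax⟩ := hfin.exists_maximalFor (fun M => M) _ ⟨Z, hZ, le_rfl⟩
  refine ⟨M, ⟨hM.1, fun Y hY hMY => ?_⟩, hM.2⟩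
  exact le_antisymm (hmax ⟨hY, hM.2.trans hMY⟩ hMY) hMY

theorem t_FWF (hA4 : S_A4) (hFIND : S_FIND) (hF5 : S_F5) (hNG : S_NG) (hBEV : S_BEV)
    (hC1A : S_C1A) (hC1B : S_C1B) (hC2 : S_C2) (hBNT : S_BNT) : S_FWF := by
  intro V _ _ _ e A hFW
  have hbad : ∀ B ∈ BB e A, 2 ≤ finrank (ZMod 2) B := fun B hB => (hBEV V e A hFW.mc B hB).2
  have hn := hFW.four
  -- a bad block exists
  have hne : (BB e A).Nonempty := by
    rw [Set.nonempty_iff_ne_empty]
    intro h
    have h1 := hF5 V e A hFW
    rw [h, sSup_empty] at h1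
    have h5 : finrank (ZMod 2) (⊥ : DSub V) = finrank (ZMod 2) (⊤ : DSub V) := by rw [h1]
    rw [finrank_bot, finrank_top, finrank_Dl] at h5
    omega
  obtain ⟨B, hB, hmin⟩ := Set.exists_min_image (BB e A) (fun F => finrank (ZMod 2) F)
    (Set.toFinite _) hne
  -- independence from `P`
  have hdim : ∀ F ∈ BB e A,
      finrank (ZMod 2) F + finrank (ZMod 2) (PP e A) ≤ finrank (ZMod 2) V := by
    intro F hF
    have h1 : sSupIndep (GB e A ∪ {F}) := by
      apply hFIND V e A {F} hFW (Set.singleton_subset_iff.2 hF)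
      rw [sSup_singleton]
      exact (hBNT V e A F hFW.mc hF.1).1
    have h2 : Disjoint F (PP e A) := by
      apply h1.disjoint_sSup (Set.mem_union_right _ (Set.mem_singleton F)) Set.subset_union_left
      intro h
      exact hF.2 h.2
    have h3 := Submodule.finrank_sup_add_finrank_inf_eq F (PP e A)
    rw [h2.eq_bot, finrank_bot, add_zero] at h3
    rw [← h3, ← finrank_Dl (V := V)]
    exact Submodule.finrank_le _
  obtain ⟨c, hc, hcn⟩ := hNG V e A B hFW hB
  -- k m ≤ n'
  have hkm : (BBL e A c).ncard * finrank (ZMod 2) B + finrank (ZMod 2) (PP e A)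
      ≤ finrank (ZMod 2) V := by
    have hN : BBL e A c ⊆ BB e A := fun F hF => hF.1
    have hle : sSup (BBL e A c) ≤ ann c := sSup_le fun F hF => hF.2
    have hsp : sSup (BBL e A c) ≠ ⊤ := by
      intro h
      rw [h] at hle
      exact ann_ne_top hc (top_le_iff.1 hle)
    have hind := hFIND V e A (BBL e A c) hFW hN hsp
    classical
    have hfG : (GB e A).Finite := Set.toFinite _
    have hfB : (BBL e A c).Finite := Set.toFinite _
    have hdisj : Disjoint hfG.toFinset hfB.toFinset := by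
      rw [Finset.disjoint_left]
      intro F h1 h2
      exact ((hfB.mem_toFinset.1 h2).1).2 (hfG.mem_toFinset.1 h1).2
    have h1 := idim (hfG.toFinset ∪ hfB.toFinset) (by
      rw [Finset.coe_union, hfG.coe_toFinset, hfB.coe_toFinset]; exact hind)
    have h2 := idim hfG.toFinset (by
      rw [hfG.coe_toFinset]; exact hind.mono Set.subset_union_left)
    rw [hfG.coe_toFinset] at h2
    rw [Finset.sum_union hdisj, ← h2] at h1
    have h3 : (BBL e A c).ncard * finrank (ZMod 2) B
        ≤ ∑ X ∈ hfB.toFinset, finrank (ZMod 2) X := by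
      rw [Set.ncard_eq_toFinset_card _ hfB, ← smul_eq_mul]
      apply Finset.card_nsmul_le_sum
      intro X hX
      exact hmin X (hfB.mem_toFinset.1 hX).1
    have h4 : finrank (ZMod 2)
        (sSup ((hfG.toFinset ∪ hfB.toFinset : Finset (DSub V)) : Set (DSub V)) : DSub V)
        ≤ finrank (ZMod 2) V := by
      rw [← finrank_Dl (V := V)]
      exact Submodule.finrank_le _
    have h5 : finrank (ZMod 2) (PP e A) = finrank (ZMod 2) (sSup (GB e A) : DSub V) := rfl
    omega
  have hdB := hdim B hB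
  have hm2 := hbad B hB
  have h3d : 3 ≤ finrank (ZMod 2) (PP e A) := by
    obtain ⟨Z, hZ⟩ := hFW.cone
    obtain ⟨M, hM, _⟩ := exists_maxCone hZ
    have hMG : M ∈ GB e A := ⟨Or.inl hM, hA4 V e A M hFW.mc hM⟩
    have hMP : M ≤ PP e A := le_sSup hMG
    have h3 : 3 ≤ finrank (ZMod 2) M := by
      obtain ⟨p, hp⟩ := hM.1
      exact hp.1
    exact h3.trans (Submodule.finrank_mono hMP)
  have hC1A' := hC1A V e A hFW
  have hC1B' := hC1B V e A (finrank (ZMod 2) B) hFW
  have hC2' := hC2 V e A hFW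
  set n := finrank (ZMod 2) V with hndef
  set d := finrank (ZMod 2) (PP e A) with hddef
  set m := finrank (ZMod 2) B with hmdef
  set k := (BBL e A c).ncard with hkdef
  obtain ⟨r, hr⟩ := Nat.exists_eq_add_of_le hdB
  have hrk : r ≤ k := by omega
  have hrm : r * m ≤ r + m := by
    have : r * m ≤ k * m := Nat.mul_le_mul_right m hrk
    omega
  have hcase : r = 0 ∨ r = 1 ∨ (r = 2 ∧ m = 2) := by
    by_contra hcon
    push Not at hcon
    obtain ⟨h0, h1, h2⟩ := hcon
    have hr2 : 2 ≤ r := by omega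
    rcases Nat.lt_or_ge 2 r with h3 | h3
    · nlinarith
    · have hr2' : r = 2 := by omega
      have := h2 hr2'
      subst hr2'
      omega
  rcases hcase with hr0 | hr1 | ⟨hr2, hm22⟩
  · exact hC1A' fun F hF => by
      have h1 := hdim F hF
      have h2 := hmin F hF
      omega
  · exact hC1B' (fun F hF => by
      have h1 := hdim F hF
      have h2 := hmin F hF
      omega) ⟨B, hB, rfl⟩ (by omega)
  · exact hC2' (by omega) (by omega) ⟨B, hB, hm22⟩

end Pool.Agent.W853.ELG
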